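import Pool.Agent.Lib.MP_56a425_co.PrimeEll
import Pool.Agent.Lib.MP_56a425_coR.Bounds
import Pool.Agent.Lib.MP_56a425_coR.Lower

/-!
MP_56a425_co, Q1: `l(θ) ≤ 4` for every `θ > 1 / 2`, `l(θ) ≥ 4` for every `θ < 1 / 2`, and new upper
bounds `7` and `8` for some smaller `θ`, from digit sets in the rational bases `4 / 3`, `10 / 9` and
`6 / 5`. The definitions `HasAP`, `lp` and `ell` are in `Pool.Agent.Lib.MP_56a425_co.Defs`.
-/

namespace Pool.Agent.Results.MP_56a425_co.RationalBase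

open Pool.Agent.Lib.MP_56a425_co Pool.Agent.Lib.MP_56a425_coR

/-- `4 ≤ l(θ)` for `θ < 1 / 2`; `3 ≤ l(θ) ≤ 4` for `1 / 2 < θ < 1`; `l(θ) ≤ 7` for
`1 - log 4 / log 10 < θ < 1`; `l(θ) ≤ 8` for `1 - log 3 / log 6 < θ < 1`. -/
theorem result (θ : ℝ) (h1 : θ < 1) :
    (θ < 1 / 2 → 4 ≤ ell θ) ∧
    (1 / 2 < θ → 3 ≤ ell θ ∧ ell θ ≤ 4) ∧
    (1 - Real.log 4 / Real.log 10 < θ → ell θ ≤ 7) ∧
    (1 - Real.log 3 / Real.log 6 < θ → ell θ ≤ 8) := by
  refine ⟨four_le_ell, ?_, ?_, ?_⟩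
  · intro h0
    refine ⟨three_le_ell h1, ?_⟩
    have h3 : Real.log ((4 : ℕ) : ℝ) = 2 * Real.log ((2 : ℕ) : ℝ) := by
      have h4 : ((4 : ℕ) : ℝ) = ((2 : ℕ) : ℝ) ^ 2 := by norm_num
      rw [h4, Real.log_pow]
      norm_num
    have h5 : 0 < Real.log ((2 : ℕ) : ℝ) := Real.log_pos (by norm_num)
    have h6 : Real.log ((2 : ℕ) : ℝ) / Real.log ((4 : ℕ) : ℝ) = 1 / 2 := by
      rw [h3]
      field_simp
    have h2 := ell_le_of_chk (p := 4) (q := 3) (k := 2) (L := 3) (by norm_num) (by norm_num)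
      (by norm_num) (by norm_num) chk_four_thirds (by decide) θ (by rw [h6]; linarith) h1
    exact_mod_cast h2
  · intro h0
    have h2 := ell_le_of_chk (p := 10) (q := 9) (k := 4) (L := 6) (by norm_num) (by norm_num)
      (by norm_num) (by norm_num) chk_ten_ninths (by decide) θ (by exact_mod_cast h0) h1
    exact_mod_cast h2
  · intro h0
    have h2 := ell_le_of_chk (p := 6) (q := 5) (k := 3) (L := 7) (by norm_num) (by norm_num)
      (by norm_num) (by norm_num) chk_six_fifths (by decide) θ (by exact_mod_cast h0) h1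
    exact_mod_cast h2

end Pool.Agent.Results.MP_56a425_co.RationalBase
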