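import Pool.Agent.Lib.MP_56a425_co.PrimeEll

/-!
MP_56a425_co, Q1: the exact value of `l(θ)` for `1 - log 2 / log 5 ≤ θ < 1`.
The definitions `HasAP`, `lp` and `ell` are in `Pool.Agent.Lib.MP_56a425_co.Defs`.
-/

namespace Pool.Agent.Results.MP_56a425_co.SparseRange

open Pool.Agent.Lib.MP_56a425_co

/-- For every prime `p ≥ 5` one has `3 ≤ l(θ) ≤ p - 2` for
`1 - log ((p - 1) / 2) / log p ≤ θ < 1`; for `p = 5` this says that `l(θ) = 3` for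
`1 - log 2 / log 5 ≤ θ < 1`. -/
theorem result :
    (∀ p : ℕ, p.Prime → 5 ≤ p → ∀ θ : ℝ,
      1 - Real.log (((p : ℝ) - 1) / 2) / Real.log p ≤ θ → θ < 1 →
        3 ≤ ell θ ∧ ell θ ≤ ((p - 2 : ℕ) : ℕ∞)) ∧
    (∀ θ : ℝ, 1 - Real.log 2 / Real.log 5 ≤ θ → θ < 1 → ell θ = 3) := by
  refine ⟨fun p hp hp5 θ h0 h1 => ⟨three_le_ell h1, ell_le_prime hp hp5 h0⟩, ?_⟩
  intro θ h0 h1
  refine le_antisymm ?_ (three_le_ell h1)
  have h2 := ell_le_prime (p := 5) (by norm_num) le_rfl (θ := θ) (by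
    have : (((5 : ℕ) : ℝ) - 1) / 2 = 2 := by norm_num
    rw [this]
    exact_mod_cast h0)
  exact_mod_cast h2

end Pool.Agent.Results.MP_56a425_co.SparseRange
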