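import Mathlib
import Pool.Agent.Lib.MP_56a425_co.Final

/-!
MP_56a425_co, Q1: an upper bound for `l(θ)` that is subexponential in `1 / θ`.
The definitions `HasAP`, `lp` and `ell` are in `Pool.Agent.Lib.MP_56a425_co.Defs`.
-/

namespace Pool.Agent.Results.MP_56a425_co.SubexponentialBound

open Pool.Agent.Lib.MP_56a425_co

/-- For every `θ` in `(0, 1)` the limit superior `l(θ)` is at most
`exp (C θ^(-2/3) (log (2/θ))^(1/3))`, with an absolute constant `C`. -/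
theorem result : ∃ C : ℝ, 0 < C ∧ ∀ θ : ℝ, 0 < θ → θ < 1 → ∃ L : ℕ, ell θ ≤ (L : ℕ∞) ∧
    (L : ℝ) ≤ Real.exp (C * θ ^ (-(2 / 3) : ℝ) * Real.log (2 / θ) ^ ((1 / 3) : ℝ)) :=
  ⟨1161216, by norm_num, fun θ h0 h1 => main_bound θ h0 h1⟩

end Pool.Agent.Results.MP_56a425_co.SubexponentialBound
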