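import Pool.Agent.Lib.MP_56a425_co.PrimeEll
import Pool.Agent.Lib.MP_56a425_coT.Data

/-!
MP_56a425_co, Q1: new upper bounds for `l(θ)` in a middle range of `θ`.
The definitions `HasAP`, `lp` and `ell` are in `Pool.Agent.Lib.MP_56a425_co.Defs`. The proof uses
the weight certificates `IsCert` of `Pool.Agent.Lib.MP_56a425_coT.Base` and the general theorem
`ell_le_of_cert` of `Pool.Agent.Lib.MP_56a425_coT.Growth`.
-/

namespace Pool.Agent.Results.MP_56a425_co.WeightCertificates

open Pool.Agent.Lib.MP_56a425_co Pool.Agent.Lib.MP_56a425_coT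

/-- Upper bounds `4`, `6`, `7`, `8` for `l(θ)`, for `θ < 1` above `0.50988…`, `0.42187…`,
`0.40835…` and `0.38997…`. -/
theorem result (θ : ℝ) (h1 : θ < 1) :
    (1 - Real.log 7 / Real.log 53 < θ → 3 ≤ ell θ ∧ ell θ ≤ 4) ∧
    (1 - Real.log 4 / Real.log 11 < θ → ell θ ≤ 6) ∧
    (1 - Real.log 10 / Real.log 49 < θ → ell θ ≤ 7) ∧
    (1 - Real.log 13 / Real.log 67 < θ → ell θ ≤ 8) := by
  refine ⟨?_, ?_, ?_, ?_⟩
  · intro h0
    refine ⟨three_le_ell h1, ?_⟩
    have h2 := ell_le_of_cert (isCert_of_check 5 53 7 Xa wa Wa Sa (by norm_num) checka)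
      (by norm_num) θ (by exact_mod_cast h0) h1
    exact_mod_cast h2
  · intro h0
    have h2 := ell_le_of_cert (isCert_of_check 7 11 4 Xb wb Wb Sb (by norm_num) checkb)
      (by norm_num) θ (by exact_mod_cast h0) h1
    exact_mod_cast h2
  · intro h0
    have h2 := ell_le_of_cert (isCert_of_check 8 49 10 Xc wc Wc Sc (by norm_num) checkc)
      (by norm_num) θ (by exact_mod_cast h0) h1
    exact_mod_cast h2
  · intro h0
    have h2 := ell_le_of_cert (isCert_of_check 9 67 13 Xd wd Wd Sd (by norm_num) checkd)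
      (by norm_num) θ (by exact_mod_cast h0) h1
    exact_mod_cast h2

end Pool.Agent.Results.MP_56a425_co.WeightCertificates
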